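import Pool.Agent.H27.P.Main

/-!
# Parshin's conjecture for products from few factors

Let `T` be a *pure theory* on the smooth projective varieties over a finite field `k` with `q`
elements: a theory on which correspondences modulo rational equivalence act, such that the
Frobenius endomorphism acts as `q ^ i` in degree `i` and the part of degree zero vanishes. The
Adams eigenspaces `K_m(X)^(i)` of the groups `K_m(X) ⊗ ℚ`, `m ≥ 1`, are the most important example;
Parshin's conjecture asserts that they vanish. Other examples are the cycles which are numerically
trivial modulo those which are rationally trivial, and the generalised Frobenius eigenspaces for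
`q ^ i` in the cohomology modulo the classes of algebraic cycles.

Let `γ t`, `t ∈ I`, be finitely or infinitely many Weil numbers of weights `w t`, and let `𝒞 t r` be
classes of varieties over `k` such that the Frobenius eigenvalues of `Y ∈ 𝒞 t r` are powers of `q` and
numbers `z q ^ r` with `z` conjugate to `γ t` (if the variety `Y` belongs to several of the classes, all
these numbers are allowed). Suppose that one of the following two conditions holds.

* *Generic numbers*: for every conjugate `z` of some `γ t` there is an automorphism of the field of
  algebraic numbers which maps `z` to its complex conjugate `q ^ w / z` and fixes all other conjugates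
  of all `γ s` except for `q ^ w / z`. So the Galois group of the numbers is as large as possible.
* *Numbers of K3 type*: only one conjugate of `γ t` and its complex conjugate have a slope different
  from `w t / 2` at a place above `p`, and the fields generated by the conjugates of `γ t` and by the
  conjugates of all other `γ s` have only totally real numbers in common. Examples are the numbers of
  the ordinary elliptic curves and of the ordinary K3 surfaces.

Let `Z` be an arbitrary smooth projective variety over `k` the homologically trivial
self-correspondences of which are nilpotent (for instance an abelian variety, a product of curves or a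
variety whose motive is finite-dimensional), and let `D` be a number such that the slopes of `H^i(Z)`
differ from `i / 2` by at most `D / 2`; the number `D = dim Z` always has this property.

*Theorem.* If the homologically trivial correspondences of the products `Y × Y'` with `Y ∈ 𝒞 t r` and
`Y' ∈ 𝒞 t r'` are nilpotent and these products satisfy the strong Tate conjecture, then the pure theory
`T` vanishes on all varieties generated by the products `Z × Y₁ × ⋯ × Yₙ` with arbitrary members of the
classes if it vanishes on those products for which the sum of the mean widths of the factors is at most
`D`, and at most `deg (γ t) / 2 * ⌊D / c t⌋` factors have the type `t`. Here the width of a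
conjugate `z` of `γ t` is `|2 slope (z) - w t|`, `c t` is the width of one of the conjugates, and the
mean width is the mean value of the widths of all conjugates.

So `K_m(Z × Y₁ × ⋯ × Yₙ)` is a torsion group for all `m ≥ 1` and all `n` if this is true for the short
products. For ordinary elliptic curves, and for curves with generic ordinary numbers, short means that
there are at most `dim Z` factors. (The jacobians of these curves and their products are generated by
the products of the curves, so they are covered.) If `D` is smaller than all `c t`, for instance if
`Z` is supersingular in all degrees, then `K_m(Z × Y₁ × ⋯ × Yₙ) ⊗ ℚ = 0` for all products if and only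
if `K_m(Z) ⊗ ℚ = 0`.

*Proof.* Suppose that `T` does not vanish on the product `V` of `Z` with `n` members, and that `n` is
minimal. The partial Frobenius endomorphisms commute, and by nilpotence they are algebraic over `ℚ`
as operators on `T(V)`, with Frobenius eigenvalues of the factors as eigenvalues. So
there is a common eigenvector (after an extension of the scalars), and the product of the
eigenvalues is `q ^ i`. If the eigenvalue of some factor `Y` is a power of `q`, or if the product of
the eigenvalues of two factors `Y`, `Y'` is a power of `q` and the two eigenvalues belong to the same
`γ t`, then the motive of `Y` or `Y × Y'` contains Tate motives which account for it, up to nilpotent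
correspondences, and the vector comes from the product of the other factors, where `T` vanishes.
Otherwise the slopes of the conjugates of the relation between the eigenvalues of `Z` and of the
members, together with the partial complex conjugations, show that the product is short.
-/

set_option autoImplicit false

open CategoryTheory AlgebraicGeometry

universe u v w w'

namespace Pool.Agent.Results.MP_27fd67_ag.FewFactorsDecide

open Pool.Agent.H914 Pool.Agent.H914.VarClass Pool.Agent.H914.VarClass.Obj
  Pool.Agent.W492.BB Pool.Agent.TH133 Pool.Agent.H27.K3 Pool.Agent.H27.Lin Pool.Agent.H27.Ab
  Pool.Agent.H27.P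
open Pool.Agent.Q56.CP (Pure)

/-- **Pure theories, in particular the rational `K`-groups, vanish on the products of an arbitrary
variety with arbitrarily many varieties if they vanish on the products with few factors.** -/
theorem result {k : Type u} [Field k] {𝒱 : VarClass k} (C : TheoryData.{u, v, 0} 𝒱 ℚ)
    [IsChowProj C] {K : Type w} [Field K] [CharZero K] (H : WeilTheoryData.{u, v, w} C K)
    [IsWeilProj H] (p a : ℕ) [Fact p.Prime] (ha : 0 < a) (Fr : ∀ X : 𝒱.Obj, X ⟶ X)
    (hFr : FrobTheory H Fr (p ^ a)) (ι : Qb →+* PadicAlgCl p) :
    ∃ lam : Qb → ℚ, (∀ z, (lam z : ℝ) = -Real.logb ((p ^ a : ℕ) : ℝ) ‖ι z‖) ∧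
      (∀ Z, HasWidthAtMost H Fr lam Z.dim Z) ∧
      ∀ {I : Type w'} (w : I → ℕ) (γ : I → Qb) (c : I → ℚ), (∀ t, IsWeil (p ^ a) (w t) (γ t)) →
      IsWidth lam w γ c →
      (PairFlips (p ^ a) w γ ∨ ((∀ t, IsK3Type lam (p ^ a) (w t) (γ t)) ∧ MeetInReal γ)) →
      ∀ 𝒞 : I → ℕ → Set 𝒱.Obj, (∀ t r, ∀ Y ∈ 𝒞 t r, HasNumbers H Fr (p ^ a) w γ 𝒞 Y) →
      (∀ t r r', ∀ Y ∈ 𝒞 t r, ∀ Y' ∈ 𝒞 t r', TateNil H Fr (p ^ a) (Y.prod Y')) →
      ∀ Z, Nil H Z → ∀ D : ℚ, HasWidthAtMost H Fr lam D Z → ∀ T : Pure C Fr (p ^ a),
        (∀ V ∈ productsWith 𝒞 (IsShortOnAverage lam w γ c D) Z, Vanishes T V) →
          ∀ V, SumFactor C (productsWith 𝒞 (fun _ => True) Z) V → Vanishes T V := by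
  obtain ⟨lam, hlam⟩ := exists_lam (p := p) ha ι
  refine ⟨lam, hlam, fun Z => width_le_dim ha hFr hlam Z, ?_⟩
  intro I w γ c hw hc h 𝒞 hnum hpair Z hZ D hD T hvan
  exact parshin_main ha hFr hlam hw hc h hnum hpair hZ hD T hvan

end Pool.Agent.Results.MP_27fd67_ag.FewFactorsDecide
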