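import Pool.Agent.H43.PC.ParL

/-!
# Parshin's conjecture and planar cubic hypersurfaces

A *gate* is one of the polynomials `x_a`, `x_a - 1`, `x_a - x_b`, `x_a + x_b - x_c`, `x_a x_b - x_c`.
A *lattice system* consists of `N` variables and `r` gates `p_g` with different places in the square
lattice `ℤ²` such that each gate is a neighbour of each of its (different) variables and each variable
is in at most three gates. Its *lattice cubic* is the smooth affine cubic hypersurface
`Z : ∑_g t_g p_g(x) = 1` in the affine space with the coordinates `x`, `t` over the prime field `F_p`.

For a scheme `X` of finite type over `F_p` the weight complex `W(X)` of Gillet and Soulé is a complex of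
Chow motives over `F_p`, so there are complexes `K_m(W(X)) ⊗ ℚ` of rational vector spaces.

The proof. Every integral affine scheme of dimension `i` of finite type over `F_p` has a non-empty smooth
open subscheme which is the scheme of the solutions of a lattice system with `N = r + i`
(`Pool.Agent.H43.PC.exists_lat`). The lattice cubic is an affine bundle over the complement of this
scheme in `𝔸^N`.
-/

set_option autoImplicit false

open CategoryTheory CategoryTheory.Limits AlgebraicGeometry Pool.Agent.Y116.UV
  Pool.Agent.H71.AR Pool.Agent.H43.PC

namespace Pool.Agent.Results.MP_27fd67_ag.LatticeCubics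

universe v u

/-- **Parshin's conjecture and lattice cubics.** Let `p` be a prime number and `d` a natural number.

(1) For every `m ≥ 1` the following are equivalent:

* `K_m(X) ⊗ ℚ = 0` for all smooth projective schemes `X` of dimension at most `d` over finite fields of
  characteristic `p`;
* the complexes `K_m(W(Z)) ⊗ ℚ` are exact for the lattice cubics `Z` over `F_p` of all lattice systems
  whose scheme of solutions has dimension at most `d`;
* the same for the lattice systems whose scheme of solutions is integral, smooth and of dimension
  `N - r ≤ d`, where `N` is the number of variables and `r` is the number of gates.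

(2) For every `m` the groups `K_n(X) ⊗ ℚ` are zero for all `n ≥ m` and these schemes `X` if and only if
`K^c_n(V) ⊗ ℚ = 0` (compact supports) for all `n ≥ m` and all smooth integral complete intersections
`V` over `F_p`, of dimension `N - r ≤ d`, which are the schemes of the solutions of lattice systems of
`r` gates in `N` variables. (For `m = 1` this is Parshin's conjecture in characteristic `p` and
dimension at most `d`.) -/
theorem result (p : ℕ) [Fact p.Prime]
    -- the Chow motives over the prime field, the weight complexes and the Tate twist
    {M : Type u} [Category.{v} M] [Preadditive M] [HasZeroObject M] [HasBinaryBiproducts M]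
    {D : WeightData (ZMod p) M} {L : M ⥤ M} [L.Additive] (hD : IsWeightB D L)
    -- the rational `K`-groups
    {T : KData p M} (hT : IsK D T) (hL : IsTwistK D T L) (d : ℕ) :
    (∀ m : ℕ, 1 ≤ m → List.TFAE [
      Torsion T m d,
      ∀ (N r : ℕ) (γ : Fin r → Gate (ZMod p) (Fin N)), OnLattice {0, 1} γ →
        ringKrullDim (Net γ) ≤ d → KExact D T m (aff (ZMod p) (HypG γ)),
      ∀ (N r i : ℕ) (γ : Fin r → Gate (ZMod p) (Fin N)), LatCI γ i → i ≤ d →
        KExact D T m (aff (ZMod p) (HypG γ))]) ∧
    ∀ m : ℕ, (∀ n, m ≤ n → Torsion T n d) ↔
      ∀ n, m ≤ n → ∀ (N r i : ℕ) (γ : Fin r → Gate (ZMod p) (Fin N)), LatCI γ i → i ≤ d →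
        IsZero (T.Kc n (aff (ZMod p) (Net γ))) :=
  ⟨fun m hm => par_lat hD hT hL m d hm, fun m => par_net hT m d⟩

end Pool.Agent.Results.MP_27fd67_ag.LatticeCubics
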