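import Pool.Agent.H71.AR.Par

/-!
# Parshin's conjecture and moduli spaces of line arrangements

A moduli space of line arrangements parametrises the arrangements which consist of the four lines
`X = 0`, `Y = 0`, `Z = 0`, `X + Y + Z = 0` and of `a` lines `X + x_i Y + y_i Z = 0` and `b` lines
`Y + z_j Z = 0` in the projective plane such that exactly the triples of lines in a given set `S` are
not concurrent. `ArrAlg k N` says that `N` is the algebra of functions on such a moduli space over `k`
(it represents the functor of these arrangements) and that the lines are pairwise distinct.

The rational `K`-group `K_m(A)_ℚ` is an additive functor of the Chow motives `A` over the field `F_p`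
with `p` elements. For a scheme `X` of finite type over `F_p` the weight complex `W(X)` of Gillet and
Soulé is a complex of Chow motives, so there are complexes `K_m(W(X))_ℚ`.

The proof uses a form of the universality theorem of Mnëv, Sturmfels and Lafforgue which preserves the
dimension: every integral affine scheme of finite type over `F_p` has a non-empty smooth open subscheme
which is isomorphic to a moduli space of line arrangements (`Pool.Agent.H71.AR.exists_nice`).
-/

set_option autoImplicit false

open CategoryTheory CategoryTheory.Limits AlgebraicGeometry Pool.Agent.Y116.UV
  Pool.Agent.H71.AR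

namespace Pool.Agent.Results.MP_27fd67_ag.LineArrangements

universe v u

/-- **Parshin's conjecture and line arrangements.** Let `p` be a prime number, and `m`, `d` natural
numbers.

(1) `K_m(X) ⊗ ℚ = 0` for all smooth projective schemes `X` of dimension at most `d` over finite fields of
characteristic `p` if and only if the complexes `K_m(W(N))_ℚ` are exact for all smooth integral moduli
spaces `N` of line arrangements over `F_p` of dimension at most `d`.

(2) `K_n(X) ⊗ ℚ = 0` for all `n ≥ m` and these schemes `X` if and only if `K^c_n(N) ⊗ ℚ = 0` for all
`n ≥ m` and these moduli spaces `N`. (For `m = 1` this is Parshin's conjecture in characteristic `p` and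
dimension at most `d`.) -/
theorem result (p : ℕ) [Fact p.Prime]
    -- the Chow motives over the prime field and the weight complexes
    {M : Type u} [Category.{v} M] [Preadditive M] [HasZeroObject M] [HasBinaryBiproducts M]
    {D : WeightData (ZMod p) M} (hD : IsWeight D)
    -- the rational `K`-groups
    {T : KData p M} (hT : IsK D T) (m d : ℕ) :
    (Torsion T m d ↔
      ∀ (N : Type) [CommRing N] [IsDomain N] [Algebra (ZMod p) N] [Algebra.Smooth (ZMod p) N],
        ArrAlg (ZMod p) N → ringKrullDim N ≤ d →
          ∀ i : ℤ, IsZero (wtH D (T.mot m) i (aff (ZMod p) N))) ∧
    ((∀ n, m ≤ n → Torsion T n d) ↔ ∀ n, m ≤ n →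
      ∀ (N : Type) [CommRing N] [IsDomain N] [Algebra (ZMod p) N] [Algebra.Smooth (ZMod p) N],
        ArrAlg (ZMod p) N → ringKrullDim N ≤ d → IsZero (T.Kc n (aff (ZMod p) N))) :=
  ⟨par_weight hD hT m d, par_compact hT m d⟩

end Pool.Agent.Results.MP_27fd67_ag.LineArrangements
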