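import Pool.Agent.H27.P.SqMain

/-!
# Parshin's conjecture for products with arbitrary ordinary elliptic curves from few factors

Let `T` be a *pure theory* on the smooth projective varieties over the field with `q` elements: a
theory on which correspondences modulo rational equivalence act, such that the Frobenius
endomorphism acts as `q ^ i` in degree `i` and the part of degree zero vanishes. The Adams
eigenspaces `K_m(X)^(i)` of the groups `K_m(X) ⊗ ℚ`, `m ≥ 1`, are the most important example;
Parshin's conjecture asserts that they vanish.

Let `Z` be an arbitrary smooth projective variety the homologically trivial self-correspondences of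
which are nilpotent, let `D` be a number such that the slopes of `H^i(Z)` differ from `i / 2` by at
most `D / 2`; the number `D = dim Z` always has this property.

*Elliptic curves.* Let `E t`, `t ∈ I`, be ordinary elliptic curves with different fields of complex
multiplication. If `T` vanishes on the products of `Z` with at most `D ^ 2` curves `E t` (more
precisely, on those products in which `E t` occurs `n t` times with `∑ (n t) ^ 2 ≤ D ^ 2`), then `T`
vanishes on the products of `Z` with arbitrarily many curves `E t`. There is no condition on the
curves besides the fact that the quadratic fields are different, and all such curves may occur.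

*General numbers.* More generally, let `γ t`, `t ∈ I`, be Weil numbers of weights `w t`, and let `𝒞 t r`
be classes of varieties such that the Frobenius eigenvalues of `Y ∈ 𝒞 t r` are powers of `q` and
numbers `z q ^ r` with `z` conjugate to `γ t`. Suppose that for two conjugates `y`, `z` of `γ s` and
`γ t` which are different and not complex conjugate there is an automorphism of the field of
algebraic numbers which maps `z` to its complex conjugate `q ^ w / z` and fixes `y`; for `s = t` this
is not needed if `γ t` is of K3 type. (The condition means that `z` and its complex conjugate are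
conjugate over `ℚ(y)`. It holds for the two fields generated by the conjugates of `γ s` and `γ t` if
they have only totally real numbers in common and the numbers are of K3 type.) Suppose that the
homologically trivial correspondences of the products `Y × Y'` with `Y ∈ 𝒞 t r` and `Y' ∈ 𝒞 t r'` are
nilpotent and that these products satisfy the strong Tate conjecture.

*Theorem.* The pure theory `T` vanishes on all varieties generated by the products
`Z × Y₁ × ⋯ × Yₙ` with arbitrary members of the classes if it vanishes on those products for which
`∑ v t * max (n t, 2 (n t) ^ 2 / deg (γ t)) ≤ D ^ 2` and `n t ≤ deg (γ t) / 2 * ⌊D / c t⌋`. Here `n t`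
is the number of the factors of type `t`, `c t` is the width `|2 slope (z) - w t|` of one of the
conjugates `z` of `γ t`, and `v t` is the mean value of the squares of the widths of all conjugates.

For a family of numbers which is jointly independent the result `FewFactorsDecide` gives linear
instead of quadratic bounds. But for instance four imaginary quadratic fields with discriminants the
product of which is a square are not jointly independent, so `FewFactorsDecide` does not apply to the
family of all ordinary elliptic curves.

*Proof.* By the method of `FewFactorsDecide` one has to consider a relation `β * z₁ ⋯ zₙ = q ^ j`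
between a Frobenius eigenvalue `β` of `Z` and conjugates of the `γ t` in which no number `z` occurs
together with its complex conjugate. The slopes of the conjugates of the relation say that the sum of
the functions `τ ↦ 2 slope (τ zᵢ) - w` on the Galois group is bounded by `D`. The automorphisms of the
hypothesis show that these functions are pairwise orthogonal, so the sum of their mean squares is at
most `D ^ 2`. They also show that the conditional expectation of the functions for the other letters
vanishes if the value of one of them is given; this bounds the multiplicities.
-/

set_option autoImplicit false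

open CategoryTheory AlgebraicGeometry

universe u v w w'

namespace Pool.Agent.Results.MP_27fd67_ag.PairwiseFlipsDecide

open Pool.Agent.H914 Pool.Agent.H914.VarClass Pool.Agent.H914.VarClass.Obj
  Pool.Agent.W492.BB Pool.Agent.TH133 Pool.Agent.H27.K3 Pool.Agent.H27.Ab Pool.Agent.H27.P
open Pool.Agent.Q56.CP (Pure)

/-- **Pure theories, in particular the rational `K`-groups, vanish on the products of an arbitrary
variety with arbitrarily many ordinary elliptic curves, and with other varieties, if they vanish on
the products with few factors.** -/
theorem result {k : Type u} [Field k] {𝒱 : VarClass k} (C : TheoryData.{u, v, 0} 𝒱 ℚ)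
    [IsChowProj C] {K : Type w} [Field K] [CharZero K] (H : WeilTheoryData.{u, v, w} C K)
    [IsWeilProj H] (p a : ℕ) [Fact p.Prime] (ha : 0 < a) (Fr : ∀ X : 𝒱.Obj, X ⟶ X)
    (hFr : FrobTheory H Fr (p ^ a)) (ι : Qb →+* PadicAlgCl p) :
    ∃ lam : Qb → ℚ, (∀ z, (lam z : ℝ) = -Real.logb ((p ^ a : ℕ) : ℝ) ‖ι z‖) ∧
      (∀ Z, HasWidthAtMost H Fr lam Z.dim Z) ∧
      ∀ {I : Type w'} (w : I → ℕ) (γ : I → Qb) (c : I → ℚ), (∀ t, IsWeil (p ^ a) (w t) (γ t)) →
      IsWidth lam w γ c →
      (FlipsPairwise lam (p ^ a) w γ ∨ ((∀ t, (minpoly ℚ (γ t)).natDegree = 2) ∧
        ∀ s t, s ≠ t → γ s ∉ Subfield.closure {γ t})) →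
      ∀ 𝒞 : I → ℕ → Set 𝒱.Obj, (∀ t r, ∀ Y ∈ 𝒞 t r, HasNumbers H Fr (p ^ a) w γ 𝒞 Y) →
      (∀ t r r', ∀ Y ∈ 𝒞 t r, ∀ Y' ∈ 𝒞 t r', TateNil H Fr (p ^ a) (Y.prod Y')) →
      ∀ Z, Nil H Z → ∀ D : ℚ, HasWidthAtMost H Fr lam D Z → ∀ T : Pure C Fr (p ^ a),
        (∀ V ∈ productsWith 𝒞 (IsShortInSquare lam w γ c D) Z, Vanishes T V) →
          ∀ V, SumFactor C (productsWith 𝒞 (fun _ => True) Z) V → Vanishes T V := by
  obtain ⟨lam, hlam⟩ := exists_lam (p := p) ha ι
  refine ⟨lam, hlam, fun Z => width_le_dim ha hFr hlam Z, ?_⟩
  intro I w γ c hw hc h 𝒞 hnum hpair Z hZ D hD T hvan
  exact parshin_pairwise ha hFr hlam hw hc h hnum hpair hZ hD T hvan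

end Pool.Agent.Results.MP_27fd67_ag.PairwiseFlipsDecide
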